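import Pool.Agent.Lib.MP_8501c9_pr.Var.Final

/-!
# The critical probability for all dimensions `d = O(log n)`

For `d` tending to infinity with `d = O(log n)` the critical probability of two-neighbour
bootstrap percolation on `[n]^d` is `(1 + o(1)) * exp (-L V h n d)`, where, with `b = log n / d`
and `a = aopt b`,
`L W H n d = d * ell b + 2 * log d - cst b + (∫ u in 0..a, (2 * W (d / (4 * u ^ 2)) + H (u / d))) / a`,
and `V` is given by a variational problem for one density on the line. The function `V` matters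
only if `log n` is of the order `d ^ (3 / 2)`: it may be replaced by `0` below and by `1` above
this order; the function `h` may be replaced by `0` if `log n` is at most a small multiple of
`d ^ 2`.
-/

set_option autoImplicit false

open MeasureTheory Filter Topology

namespace Pool.Agent.Results.MP_8501c9_pr.ExplicitRange

/-! ### bootstrap percolation on the grid -/

/-- the vertices of the grid `[n]^d` -/
abbrev Grid (n d : ℕ) := Fin d → Fin n

/-- adjacency: the vertices agree in all coordinates but one, and differ by `1` there -/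
def Adj {n d : ℕ} (x y : Grid n d) : Prop :=
  ∃ i, (∀ j, j ≠ i → x j = y j) ∧ ((x i : ℕ) + 1 = y i ∨ (y i : ℕ) + 1 = x i)

/-- one step of the `r`-neighbour process -/
def step {n d : ℕ} (r : ℕ) (A : Set (Grid n d)) : Set (Grid n d) :=
  A ∪ {v | r ≤ {u | u ∈ A ∧ Adj v u}.ncard}

/-- the closure under the `r`-neighbour process is everything -/
def Percolates {n d : ℕ} (r : ℕ) (A : Set (Grid n d)) : Prop :=
  (⋃ t : ℕ, (step r)^[t] A) = Set.univ

open Classical in
/-- the probability that the `p`-random subset of the grid percolates -/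
noncomputable def prob (n d r : ℕ) (p : ℝ) : ℝ :=
  ∑ A ∈ (Finset.univ : Finset (Finset (Grid n d))).filter
      (fun A : Finset (Grid n d) => Percolates r (A : Set (Grid n d))),
    p ^ A.card * (1 - p) ^ (Fintype.card (Grid n d) - A.card)

/-- the critical probability -/
noncomputable def pc (n d r : ℕ) : ℝ := sInf {p : ℝ | 0 ≤ p ∧ p ≤ 1 ∧ 1 / 2 ≤ prob n d r p}

/-! ### the main term of the exponent -/

/-- the piecewise linear interpolation of `log (1 + u)` at `u = 0, 1, 2, …` -/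
noncomputable def v (u : ℝ) : ℝ :=
  Real.log (⌊u⌋₊ + 1) + (u - ⌊u⌋₊) * (Real.log (⌊u⌋₊ + 2) - Real.log (⌊u⌋₊ + 1))

/-- the rate -/
noncomputable def ell (b : ℝ) : ℝ :=
  ⨅ a : Set.Ioi (0 : ℝ), (2 * b + ∫ u in (0 : ℝ)..a, v u) / a

/-- the minimiser in `ell` -/
noncomputable def aopt (b : ℝ) : ℝ :=
  sInf {a : ℝ | 0 < a ∧ 2 * b ≤ a * v a - ∫ u in (0 : ℝ)..a, v u}

/-! ### the constant for `d` of order `log n` -/

/-- the deformed exponential series -/
noncomputable def Phi (y x : ℝ) : ℝ :=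
  ∑' j : ℕ, (-x) ^ j * y ^ (j * (j - 1) / 2) / (Nat.factorial j : ℝ)

/-- the least positive zero of `Phi ((l / (l + 1)) ^ 2)` -/
noncomputable def zer (l : ℕ) : ℝ :=
  sInf {x : ℝ | 0 < x ∧ Phi (((l : ℝ) / (l + 1)) ^ 2) x = 0}

/-- the sum of `log (l ^ 2 * zer l / 2)` over `1 ≤ l ≤ a`, linearly interpolated -/
noncomputable def levs (a : ℝ) : ℝ :=
  ∑ l ∈ Finset.range ⌊a⌋₊, Real.log (((l : ℝ) + 1) ^ 2 * zer (l + 1) / 2) +
    (a - ⌊a⌋₊) * Real.log (((⌊a⌋₊ : ℝ) + 1) ^ 2 * zer (⌊a⌋₊ + 1) / 2)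

/-- the bracket in `cst` -/
noncomputable def brk (a : ℝ) : ℝ :=
  a + (1 - (a - ⌊a⌋₊)) * Real.log (1 - (a - ⌊a⌋₊)) + v a / 2 + levs a / 2

/-- the constant term -/
noncomputable def cst (b : ℝ) : ℝ := (2 * brk (aopt b) + 2 * v (aopt b)) / aopt b

/-! ### the correction for larger `log n` -/

/-- the mass which `p` gives to the interval of length one to the right of `x` -/
noncomputable def mass (p : ℝ → ℝ) (x : ℝ) : ℝ := ∫ y in x..x + 1, p y

/-- the densities of the variational problem: measurable, nonnegative, of compact support, the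
integer translates sum to `1`, and `p * log (p / mass p)` is integrable -/
def Adm (p : ℝ → ℝ) : Prop :=
  Measurable p ∧ (∀ x, 0 ≤ p x) ∧ (∃ K : ℝ, ∀ x, K ≤ |x| → p x = 0) ∧
    (∀ x, ∑' k : ℤ, p (x + k) = 1) ∧ Integrable fun x => p x * Real.log (p x / mass p x)

/-- the functional to be minimised -/
noncomputable def En (κ : ℝ) (p : ℝ → ℝ) : ℝ :=
  ∫ x, p x * (κ * x ^ 2 + Real.log (p x / mass p x))

/-- the value of the variational problem -/
noncomputable def V (κ : ℝ) : ℝ := 1 + κ / 12 - ⨅ p : {p : ℝ → ℝ // Adm p}, En κ p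

/-- the growth factor at the ratio `τ` of side length and dimension -/
noncomputable def g (τ : ℝ) : ℝ :=
  sInf ((fun y => (1 / y + τ / 2) / (1 - y) *
    Real.exp (2 / τ * (y / (1 - y)) + 1 / (1 - y) - (1 - y))) '' Set.Ioo 0 1)

/-- the correction for new sides, at the ratio `t` of side length and dimension -/
noncomputable def h (t : ℝ) : ℝ := Real.log (t * g t / (2 * Real.exp 1))

/-- the exponent of the critical probability, with the functions `W` and `H` -/
noncomputable def L (W H : ℝ → ℝ) (n d : ℕ) : ℝ :=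
  d * ell (Real.log n / d) + 2 * Real.log d - cst (Real.log n / d) +
    (∫ u in (0 : ℝ)..aopt (Real.log n / d), (2 * W (d / (4 * u ^ 2)) + H (u / d))) /
      aopt (Real.log n / d)

theorem pc_eq (n d r : ℕ) : pc n d r = Pool.Agent.Lib.MP_8501c9_pr.pc n d r := rfl

theorem v_eq : v = Pool.Agent.Lib.MP_8501c9_pr.vfun := rfl

theorem ell_eq : ell = Pool.Agent.Lib.MP_8501c9_pr.ell := rfl

theorem aopt_eq : aopt = Pool.Agent.Lib.MP_8501c9_pr.Mid.aopt := rfl

theorem zer_eq : zer = Pool.Agent.Lib.MP_8501c9_pr.Mid.lam := rfl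

theorem cst_eq : cst = Pool.Agent.Lib.MP_8501c9_pr.Mid.cexp := rfl

theorem g_eq : g = Pool.Agent.Lib.MP_8501c9_pr.Deep.gg := rfl

theorem Adm_eq : Adm = Pool.Agent.Lib.MP_8501c9_pr.Var.Adm := by
  funext p
  exact propext ⟨fun h => ⟨⟨h.1, h.2.1, h.2.2.1, h.2.2.2.1⟩, h.2.2.2.2⟩,
    fun h => ⟨h.meas, h.nonneg, h.supp, h.tile, h.int⟩⟩

theorem En_eq : En = Pool.Agent.Lib.MP_8501c9_pr.Var.En := rfl

theorem V_eq : V = Pool.Agent.Lib.MP_8501c9_pr.Var.Vsym := by
  funext κ
  have h : ∀ A B : (ℝ → ℝ) → Prop, A = B → 1 + κ / 12 - ⨅ p : {p : ℝ → ℝ // A p}, En κ p =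
      1 + κ / 12 - ⨅ p : {p : ℝ → ℝ // B p}, En κ p := by
    intro A B h
    rw [h]
  exact h _ _ Adm_eq

theorem h_eq : h = Pool.Agent.Lib.MP_8501c9_pr.Var.hh := rfl

theorem L_eq : L = Pool.Agent.Lib.MP_8501c9_pr.Var.LW := rfl

/-- First part: for all `0 < c` and `0 < ε` there are `D` and `0 < δ` such that, for all `n` and
all `d ≥ D` with `c * d ≤ log n`, the quotient of the critical probability by `exp (-L W H n d)`
differs from `1` by at most `ε`, for `W = V` and `H = h`, and also for the constant `W = 0` if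
`log n ≤ δ * d ^ (3 / 2)`, for the constant `W = 1` if `d ^ (3 / 2) ≤ δ * log n`, and for the
constant `H = 0` if `log n ≤ δ * d ^ 2`. Second part: the function `V` has values in `[0, 1]`, it
is convex and nonincreasing, with the limits `1` at `0` and `0` at infinity. -/
theorem result :
    (∀ c ε : ℝ, 0 < c → 0 < ε → ∃ (D : ℕ) (δ : ℝ), 0 < δ ∧ ∀ n d : ℕ, D ≤ d →
      c * d ≤ Real.log n → ∀ W H : ℝ → ℝ,
        (W = V ∨ (W = (fun _ => 0) ∧ Real.log n ≤ δ * (d * Real.sqrt d)) ∨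
          (W = (fun _ => 1) ∧ d * Real.sqrt d ≤ δ * Real.log n)) →
        (H = h ∨ (H = (fun _ => 0) ∧ Real.log n ≤ δ * d ^ 2)) →
        |pc n d 2 / Real.exp (-L W H n d) - 1| ≤ ε) ∧
    (∀ κ, 0 < κ → 0 ≤ V κ ∧ V κ ≤ 1) ∧ ConvexOn ℝ (Set.Ioi 0) V ∧ AntitoneOn V (Set.Ioi 0) ∧
      Tendsto V (𝓝[>] 0) (𝓝 1) ∧ Tendsto V atTop (𝓝 0) := by
  rw [V_eq, L_eq, h_eq]
  exact ⟨fun c ε hc hε => Pool.Agent.Lib.MP_8501c9_pr.Var.pc_final c ε hc hε,
    fun κ hκ => Pool.Agent.Lib.MP_8501c9_pr.Var.Vsym_mem hκ,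
    Pool.Agent.Lib.MP_8501c9_pr.Var.Vsym_convex, Pool.Agent.Lib.MP_8501c9_pr.Var.Vsym_anti,
    Pool.Agent.Lib.MP_8501c9_pr.Var.Vsym_zero, Pool.Agent.Lib.MP_8501c9_pr.Var.Vsym_infty⟩

end Pool.Agent.Results.MP_8501c9_pr.ExplicitRange
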