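import Pool.Agent.Lib.MP_8501c9_pr.SharpLower
import Pool.Agent.Lib.MP_8501c9_pr.SharpUpper

/-!
# Sharp asymptotics for the critical probability

If `d` tends to infinity and `d ^ 2 * log d = o(log n)` then the critical probability of
two-neighbour bootstrap percolation on `[n]^d` is `(1 + o(1)) * ((d - 1) / (2 log n)) ^ (d - 1)`.
-/

set_option autoImplicit false

namespace Pool.Agent.Results.MP_8501c9_pr.SharpAsymptotics

open Pool.Agent.Lib.MP_8501c9_pr

/-- For every `ε > 0` there are `D` and `c > 0` such that, for all `n` and all `d ≥ D` with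
`d ^ 2 * log d ≤ c * log n`, the quotient of the critical probability by
`((d - 1) / (2 log n)) ^ (d - 1)` differs from `1` by at most `ε`. -/
theorem result (ε : ℝ) (hε : 0 < ε) : ∃ D c : ℝ, 0 < c ∧ ∀ n d : ℕ, D ≤ d →
    (d : ℝ) ^ 2 * Real.log d ≤ c * Real.log n →
    |pc n d 2 / ((d - 1) / (2 * Real.log n)) ^ (d - 1) - 1| ≤ ε := by
  set δ : ℝ := min 1 (ε / 2) with hδ
  have hδ0 : 0 < δ := lt_min one_pos (by positivity)
  have hδ1 : δ ≤ 1 := min_le_left _ _
  have hδε : 2 * δ ≤ ε := by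
    have := min_le_right 1 (ε / 2)
    rw [← hδ] at this
    linarith
  obtain ⟨D1, c1, hc1, h1⟩ := sharp_lower δ hδ0 hδ1
  obtain ⟨D2, c2, hc2, h2⟩ := sharp_upper δ hδ0 hδ1
  refine ⟨max (max D1 D2) 3, min c1 c2, lt_min hc1 hc2, fun n d hd hdn => ?_⟩
  have hdD1 : D1 ≤ d := ((le_max_left _ _).trans (le_max_left _ _)).trans hd
  have hdD2 : D2 ≤ d := ((le_max_right _ _).trans (le_max_left _ _)).trans hd
  have hd3 : (3 : ℝ) ≤ d := (le_max_right _ _).trans hd
  have hx0 : 0 ≤ Real.log n := Real.log_natCast_nonneg n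
  have hld : 0 < Real.log d := Real.log_pos (by linarith)
  have hx : 0 < Real.log n := by
    rcases hx0.lt_or_eq with h | h
    · exact h
    · rw [← h, mul_zero] at hdn
      have : 0 < (d : ℝ) ^ 2 * Real.log d := by positivity
      linarith
  have hlow := h1 n d hdD1 (hdn.trans (mul_le_mul_of_nonneg_right (min_le_left _ _) hx0))
  have hup := h2 n d hdD2 (hdn.trans (mul_le_mul_of_nonneg_right (min_le_right _ _) hx0))
  have hd1 : (0 : ℝ) < (d : ℝ) - 1 := by linarith
  set F : ℝ := (((d : ℝ) - 1) / (2 * Real.log n)) ^ (d - 1) with hF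
  have hF0 : 0 < F := by positivity
  have h3 : Real.exp (-δ) ≤ pc n d 2 / F := by
    rw [le_div_iff₀ hF0]
    exact hlow
  have h4 : pc n d 2 / F ≤ Real.exp δ := by
    rw [div_le_iff₀ hF0]
    exact hup
  have h5 : 1 - δ ≤ Real.exp (-δ) := by
    have := Real.add_one_le_exp (-δ)
    linarith
  have h6 : Real.exp δ ≤ 1 + 2 * δ := by
    have h7 := Real.exp_bound' hδ0.le hδ1 (n := 1) (by norm_num)
    simp at h7
    linarith
  rw [abs_le]
  constructor <;> linarith

end Pool.Agent.Results.MP_8501c9_pr.SharpAsymptotics
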